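import Pool.Agent.P.MP_878f14_gt.Bridge
import Pool.Agent.P.MP_878f14_gt.B
import Pool.Agent.P.MP_878f14_gt.CW
import Pool.Agent.P.MP_878f14_gt.F
import Pool.Agent.P.MP_878f14_gt.Flow
import Pool.Agent.P.MP_878f14_gt.GaugeA
import Pool.Agent.P.MP_878f14_gt.GaugeB
import Pool.Agent.P.MP_878f14_gt.H
import Pool.Agent.P.MP_878f14_gt.Hae
import Pool.Agent.P.MP_878f14_gt.Idx
import Pool.Agent.P.MP_878f14_gt.Int
import Pool.Agent.P.MP_878f14_gt.K
import Pool.Agent.P.MP_878f14_gt.M
import Pool.Agent.P.MP_878f14_gt.Pull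
import Pool.Agent.P.MP_878f14_gt.Rho
import Pool.Agent.P.MP_878f14_gt.SphA
import Pool.Agent.P.MP_878f14_gt.SphB
import Pool.Agent.P.MP_878f14_gt.SphC
import Pool.Agent.P.MP_878f14_gt.SphD
import Pool.Agent.P.MP_878f14_gt.SphE
import Pool.Agent.P.MP_878f14_gt.Stokes
import Pool.Agent.P.MP_878f14_gt.Ury
import Pool.Agent.P.MP_878f14_gt.Y

/-!
Real Pontryagin classes of normal bundles of smooth Haefliger structures of codimension
`q = 2l + m`: an invariant polynomial of degree `n + 1` that does not vanish at a rotation with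
`r` nonzero speeds gives a nonzero class as soon as `n + 1 + min r ((n + 1) / 2) ≤ q`.
-/

namespace Pool.Agent.Results.MP_878f14_gt.Pontryagin

open Pool.Agent.P.MP_878f14_gt

theorem result (l m n : ℕ) (P : (Fin (n + 1) → En l m) → ℝ) (hP : IsInvPoly P)
    (x : Fin l → ℝ) (X : En l m) (hX : IsRot x X) (hx : P (fun _ => X) ≠ 0)
    (hq : n + 1 + min (Finset.univ.filter fun j => x j ≠ 0).card ((n + 1) / 2) ≤ 2 * l + m) :
    NonzeroClass (Base n) P := by
  have hB := pSphB pSphA
  have hC := pSphC hB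
  have hD := pSphD pSphA
  have hE := pSphE pSphA hD
  have hY := pY pSphA hB
  exact bridge (pMain pIdx pH pUry hY (pHae hC pFlow hY) (pK hC pFlow hY) pGaugeA pGaugeB
    (pB hD hE hY pRho) pCW pF (pM pF) (pPull pStokes pF) pInt) l m n P hP x X hX hx hq

end Pool.Agent.Results.MP_878f14_gt.Pontryagin
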